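import Mathlib

/-!
# Lower density bounds and one-dimensional Hausdorff measure
-/

set_option autoImplicit false

open MeasureTheory Metric Set Filter Topology
open scoped ENNReal NNReal

namespace Pool.Agent.Y247.HM

/-- finite covers from the lower density -/
theorem exists_cover (μ : Measure ℂ) [IsFiniteMeasure μ] {S : Set ℂ} {c r : ℝ} (hc : 0 < c)
    (hr : 0 < r) (h : ∀ x ∈ S, ENNReal.ofReal (c * r) ≤ μ (ball x (2 * r))) :
    ∃ t : Finset ℂ, (S ⊆ ⋃ x ∈ t, closedBall x (4 * r)) ∧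
      (t.card : ℝ≥0∞) * ENNReal.ofReal (c * r) ≤ μ univ := by
  classical
  have hcard : ∀ t : Finset ℂ, (∀ x ∈ t, x ∈ S) →
      (∀ x ∈ t, ∀ y ∈ t, x ≠ y → 4 * r < dist x y) →
      (t.card : ℝ≥0∞) * ENNReal.ofReal (c * r) ≤ μ univ := by
    intro t ht hsep
    have hdis : (t : Set ℂ).PairwiseDisjoint (fun x => ball x (2 * r)) := by
      intro x hx y hy hxy
      apply ball_disjoint_ball
      have := hsep x hx y hy hxy
      linarith
    calc (t.card : ℝ≥0∞) * ENNReal.ofReal (c * r) = ∑ x ∈ t, ENNReal.ofReal (c * r) := by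
          rw [Finset.sum_const, nsmul_eq_mul]
      _ ≤ ∑ x ∈ t, μ (ball x (2 * r)) := Finset.sum_le_sum fun x hx => h x (ht x hx)
      _ = μ (⋃ x ∈ t, ball x (2 * r)) :=
          (measure_biUnion_finset hdis fun x _ => measurableSet_ball).symm
      _ ≤ μ univ := measure_mono (subset_univ _)
  by_contra hcon
  push Not at hcon
  have key : ∀ n : ℕ, ∃ t : Finset ℂ, t.card = n ∧ (∀ x ∈ t, x ∈ S) ∧
      (∀ x ∈ t, ∀ y ∈ t, x ≠ y → 4 * r < dist x y) := by
    intro n
    induction n with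
    | zero => exact ⟨∅, by simp, by simp, by simp⟩
    | succ n ih =>
      obtain ⟨t, h1, h2, h3⟩ := ih
      have h4 : ¬ S ⊆ ⋃ x ∈ t, closedBall x (4 * r) := by
        intro h5
        exact absurd (hcard t h2 h3) (not_le.2 (hcon t h5))
      rw [Set.not_subset] at h4
      obtain ⟨z, hz, hz'⟩ := h4
      have h6 : ∀ x ∈ t, 4 * r < dist z x := by
        intro x hx
        by_contra h7
        exact hz' (mem_iUnion₂.2 ⟨x, hx, mem_closedBall.2 (not_lt.1 h7)⟩)
      have hzt : z ∉ t := by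
        intro h7
        have := h6 z h7
        rw [dist_self] at this
        linarith
      refine ⟨insert z t, by rw [Finset.card_insert_of_notMem hzt, h1], ?_, ?_⟩
      · intro x hx
        rcases Finset.mem_insert.1 hx with rfl | hx
        · exact hz
        · exact h2 x hx
      · intro x hx y hy hxy
        rcases Finset.mem_insert.1 hx with h7 | hx
        · rcases Finset.mem_insert.1 hy with h8 | hy
          · exact absurd (h7.trans h8.symm) hxy
          · rw [h7]; exact h6 y hy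
        · rcases Finset.mem_insert.1 hy with h8 | hy
          · rw [h8, dist_comm]; exact h6 x hx
          · exact h3 x hx y hy hxy
  have hpos : 0 < ENNReal.ofReal (c * r) := ENNReal.ofReal_pos.2 (mul_pos hc hr)
  obtain ⟨n, hn⟩ := ENNReal.exists_nat_mul_gt hpos.ne' (measure_ne_top μ univ)
  obtain ⟨t, h1, h2, h3⟩ := key n
  have := hcard t h2 h3
  rw [h1] at this
  exact absurd this (not_le.2 hn)

/-- **lower density implies finite length** -/
theorem hausdorff_le (μ : Measure ℂ) [IsFiniteMeasure μ] {S : Set ℂ} {c r₀ : ℝ} (hc : 0 < c)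
    (hr₀ : 0 < r₀)
    (h : ∀ x ∈ S, ∀ r : ℝ, 0 < r → r < r₀ → ENNReal.ofReal (c * r) ≤ μ (ball x (2 * r))) :
    μH[1] S ≤ ENNReal.ofReal (8 / c) * μ univ := by
  have hr : ∀ n : ℕ, 0 < r₀ / (n + 2 : ℝ) ∧ r₀ / (n + 2 : ℝ) < r₀ := by
    intro n
    have : (0 : ℝ) < n + 2 := by positivity
    refine ⟨by positivity, ?_⟩
    rw [div_lt_iff₀ this]
    nlinarith [(Nat.cast_nonneg n : (0 : ℝ) ≤ n)]
  have hcov : ∀ n : ℕ, ∃ t : Finset ℂ, (S ⊆ ⋃ x ∈ t, closedBall x (4 * (r₀ / (n + 2 : ℝ)))) ∧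
      (t.card : ℝ≥0∞) * ENNReal.ofReal (c * (r₀ / (n + 2 : ℝ))) ≤ μ univ := fun n =>
    exists_cover μ hc (hr n).1 fun x hx => h x hx _ (hr n).1 (hr n).2
  choose t ht1 ht2 using hcov
  have hdiam : ∀ (n : ℕ) (x : ℂ), ediam (closedBall x (4 * (r₀ / (n + 2 : ℝ)))) ≤
      ENNReal.ofReal (8 * (r₀ / (n + 2 : ℝ))) := by
    intro n x
    have hn := (hr n).1
    rw [← Metric.closedEBall_ofReal (by positivity)]
    refine (Metric.ediam_closedEBall_le).trans ?_
    rw [show (2 : ℝ≥0∞) = ENNReal.ofReal 2 by simp, ← ENNReal.ofReal_mul (by norm_num)]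
    apply ENNReal.ofReal_le_ofReal
    linarith
  have hlim : Tendsto (fun n : ℕ => ENNReal.ofReal (8 * (r₀ / (n + 2 : ℝ)))) atTop (𝓝 0) := by
    rw [← ENNReal.ofReal_zero]
    apply ENNReal.tendsto_ofReal
    have h1 : Tendsto (fun n : ℕ => ((n : ℝ) + 2)) atTop atTop :=
      tendsto_atTop_add_const_right _ _ tendsto_natCast_atTop_atTop
    have h2 : Tendsto (fun n : ℕ => 8 * (r₀ / ((n : ℝ) + 2))) atTop (𝓝 (8 * 0)) :=
      (h1.const_div_atTop r₀).const_mul 8
    simpa using h2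
  have hmain := Measure.hausdorffMeasure_le_liminf_sum (ι := fun n => (t n)) 1 S
    (fun n : ℕ => ENNReal.ofReal (8 * (r₀ / (n + 2 : ℝ)))) hlim
    (fun n x => closedBall (x : ℂ) (4 * (r₀ / (n + 2 : ℝ))))
    (Eventually.of_forall fun n x => hdiam n x)
    (Eventually.of_forall fun n => by
      intro z hz
      obtain ⟨x, hx, hzx⟩ := mem_iUnion₂.1 (ht1 n hz)
      exact mem_iUnion.2 ⟨⟨x, hx⟩, hzx⟩)
  refine hmain.trans ?_
  have hb : ∀ n : ℕ, ∑ x : (t n), ediam (closedBall (x : ℂ) (4 * (r₀ / (n + 2 : ℝ)))) ^ (1 : ℝ) ≤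
      ENNReal.ofReal (8 / c) * μ univ := by
    intro n
    have hn := (hr n).1
    calc ∑ x : (t n), ediam (closedBall (x : ℂ) (4 * (r₀ / (n + 2 : ℝ)))) ^ (1 : ℝ)
        ≤ ∑ _x : (t n), ENNReal.ofReal (8 * (r₀ / (n + 2 : ℝ))) := by
          apply Finset.sum_le_sum
          intro x _
          rw [ENNReal.rpow_one]
          exact hdiam n x
      _ = ((t n).card : ℝ≥0∞) * ENNReal.ofReal (8 * (r₀ / (n + 2 : ℝ))) := by
          rw [Finset.sum_const, nsmul_eq_mul]
          simp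
      _ = ENNReal.ofReal (8 / c) * (((t n).card : ℝ≥0∞) *
            ENNReal.ofReal (c * (r₀ / (n + 2 : ℝ)))) := by
          rw [mul_left_comm, ← ENNReal.ofReal_mul (by positivity)]
          congr 2
          field_simp
      _ ≤ _ := mul_le_mul_right (ht2 n) _
  calc liminf (fun n => ∑ x : (t n), ediam (closedBall (x : ℂ) (4 * (r₀ / (n + 2 : ℝ)))) ^ (1 : ℝ))
        atTop ≤ liminf (fun _ : ℕ => ENNReal.ofReal (8 / c) * μ univ) atTop :=
        liminf_le_liminf (Eventually.of_forall hb)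
    _ = _ := liminf_const _

end Pool.Agent.Y247.HM
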